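import Mathlib

set_option autoImplicit false

/-!
# Circulations of a finite directed graph are combinations of simple cycles
-/

open scoped NNReal
open Finset

namespace Pool.Agent.N974.PSC.Flow0

variable {V E : Type} [Fintype E] [DecidableEq V]

open Classical in
/-- the indicator of the cycle `z` of length `m` -/
noncomputable def ind (m : ℕ) (z : ℕ → E) (e : E) : ℝ≥0 := if ∃ j < m, z j = e then 1 else 0

theorem exists_cycle {s t : E → V} {f : E → ℝ≥0}
    (hf : ∀ v, (∑ e with t e = v, f e) = ∑ e with s e = v, f e) {e0 : E} (h0 : f e0 ≠ 0) :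
    ∃ (m : ℕ) (z : ℕ → E), 0 < m ∧ (∀ j, z (j + m) = z j) ∧
      (∀ j < m, ∀ l < m, z j = z l → j = l) ∧ (∀ j, t (z j) = s (z (j + 1))) ∧
      ∀ j, f (z j) ≠ 0 := by
  classical
  have key : ∀ e : {e : E // f e ≠ 0}, ∃ e' : {e : E // f e ≠ 0}, s e'.1 = t e.1 := by
    rintro ⟨e, he⟩
    by_contra hcon
    push Not at hcon
    have h1 : (∑ e' with s e' = t e, f e') = 0 := by
      refine Finset.sum_eq_zero fun e' he' => ?_
      by_contra h2
      exact hcon ⟨e', h2⟩ (Finset.mem_filter.1 he').2
    rw [← hf (t e)] at h1
    have h3 := (Finset.sum_eq_zero_iff.1 h1) e (by simp)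
    exact he h3
  choose nxt hnxt using key
  let p0 : {e : E // f e ≠ 0} := ⟨e0, h0⟩
  obtain ⟨i, j, hij, heq⟩ := Finite.exists_ne_map_eq_of_infinite (fun n : ℕ => nxt^[n] p0)
  have main : ∃ p : {e : E // f e ≠ 0}, p ∈ Function.periodicPts nxt := by
    rcases lt_or_gt_of_ne hij with h | h
    · refine ⟨nxt^[i] p0, j - i, by omega, ?_⟩
      show nxt^[j - i] (nxt^[i] p0) = nxt^[i] p0
      rw [← Function.iterate_add_apply, Nat.sub_add_cancel h.le]
      exact heq.symm
    · refine ⟨nxt^[j] p0, i - j, by omega, ?_⟩
      show nxt^[i - j] (nxt^[j] p0) = nxt^[j] p0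
      rw [← Function.iterate_add_apply, Nat.sub_add_cancel h.le]
      exact heq
  obtain ⟨p, hp⟩ := main
  refine ⟨Function.minimalPeriod nxt p, fun n => (nxt^[n] p).1,
    Function.minimalPeriod_pos_of_mem_periodicPts hp, ?_, ?_, ?_, ?_⟩
  · intro n
    show (nxt^[n + Function.minimalPeriod nxt p] p).1 = (nxt^[n] p).1
    rw [Function.iterate_add_apply, Function.iterate_minimalPeriod]
  · intro n hn l hl h
    exact Function.iterate_injOn_Iio_minimalPeriod hn hl (Subtype.ext h)
  · intro n
    show t (nxt^[n] p).1 = s (nxt^[n + 1] p).1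
    rw [Function.iterate_succ_apply']
    exact (hnxt _).symm
  · intro n
    exact (nxt^[n] p).2

theorem sum_ind {m : ℕ} {z : ℕ → E} (hi : ∀ j < m, ∀ l < m, z j = z l → j = l)
    (g : E → V) (v : V) :
    (∑ e with g e = v, ind m z e) = ∑ j ∈ range m, (if g (z j) = v then (1 : ℝ≥0) else 0) := by
  classical
  have h1 : ∀ e : E, ind m z e = if e ∈ (range m).image z then (1 : ℝ≥0) else 0 := by
    intro e
    unfold ind
    congr 1
    simp
  rw [Finset.sum_filter]
  have h2 : ∀ e : E, (if g e = v then ind m z e else 0) =
      if e ∈ (range m).image z then (if g e = v then (1 : ℝ≥0) else 0) else 0 := by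
    intro e
    rw [h1]
    split_ifs <;> rfl
  rw [Finset.sum_congr rfl fun e _ => h2 e, Finset.sum_ite_mem, Finset.univ_inter,
    Finset.sum_image]
  intro j hj l hl h
  exact hi j (by simpa using hj) l (by simpa using hl) h

theorem ind_circ {s t : E → V} {m : ℕ} {z : ℕ → E} (hm : 0 < m) (hz : ∀ j, z (j + m) = z j)
    (hi : ∀ j < m, ∀ l < m, z j = z l → j = l) (ht : ∀ j, t (z j) = s (z (j + 1))) (v : V) :
    (∑ e with t e = v, ind m z e) = ∑ e with s e = v, ind m z e := by
  rw [sum_ind hi, sum_ind hi]
  have h1 := Finset.sum_range_succ (fun j => if s (z j) = v then (1 : ℝ≥0) else 0) m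
  have h2 := Finset.sum_range_succ' (fun j => if s (z j) = v then (1 : ℝ≥0) else 0) m
  have h3 : z m = z 0 := by
    have := hz 0
    rwa [zero_add] at this
  rw [h3] at h1
  rw [h1] at h2
  have h4 := add_right_cancel h2
  rw [h4]
  refine Finset.sum_congr rfl fun j _ => ?_
  rw [ht j]

theorem main {s t : E → V} : ∀ (n : ℕ) (f : E → ℝ≥0), (univ.filter fun e => f e ≠ 0).card = n →
    (∀ v, (∑ e with t e = v, f e) = ∑ e with s e = v, f e) →
    ∃ (k : ℕ) (a : Fin k → ℝ≥0) (m : Fin k → ℕ) (z : Fin k → ℕ → E),
      (∀ i, 0 < m i) ∧ (∀ i j, z i (j + m i) = z i j) ∧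
      (∀ i, ∀ j < m i, ∀ l < m i, z i j = z i l → j = l) ∧
      (∀ i j, t (z i j) = s (z i (j + 1))) ∧
      ∀ e : E, f e = ∑ i, a i * ind (m i) (z i) e := by
  classical
  intro n
  induction n using Nat.strong_induction_on with
  | _ n ih =>
    intro f hn hf
    by_cases h0 : ∀ e, f e = 0
    · exact ⟨0, Fin.elim0, Fin.elim0, fun i => i.elim0, fun i => i.elim0, fun i => i.elim0,
        fun i => i.elim0, fun i => i.elim0, fun e => by simp [h0 e]⟩
    · push Not at h0
      obtain ⟨e0, he0⟩ := h0
      obtain ⟨m, z, hm, hz, hi, ht, hs⟩ := exists_cycle hf he0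
      obtain ⟨j0, hj0, hmin⟩ := Finset.exists_min_image (range m) (fun j => f (z j))
        ⟨0, by simpa using hm⟩
      set a : ℝ≥0 := f (z j0) with ha
      have hle : ∀ e, a * ind m z e ≤ f e := by
        intro e
        unfold ind
        split_ifs with h
        · obtain ⟨j, hj, rfl⟩ := h
          rw [mul_one]
          exact hmin j (by simpa using hj)
        · simp
      have hdec : ∀ e, f e = (f e - a * ind m z e) + a * ind m z e := fun e =>
        (tsub_add_cancel_of_le (hle e)).symm
      have hcirc : ∀ v, (∑ e with t e = v, (f e - a * ind m z e)) =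
          ∑ e with s e = v, (f e - a * ind m z e) := by
        intro v
        have h1 : (∑ e with t e = v, f e) =
            (∑ e with t e = v, (f e - a * ind m z e)) + a * ∑ e with t e = v, ind m z e := by
          rw [Finset.mul_sum, ← Finset.sum_add_distrib]
          exact Finset.sum_congr rfl fun e _ => hdec e
        have h2 : (∑ e with s e = v, f e) =
            (∑ e with s e = v, (f e - a * ind m z e)) + a * ∑ e with s e = v, ind m z e := by
          rw [Finset.mul_sum, ← Finset.sum_add_distrib]
          exact Finset.sum_congr rfl fun e _ => hdec e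
        have h3 := hf v
        rw [h1, h2, ind_circ hm hz hi ht v] at h3
        exact add_right_cancel h3
      have hlt : (univ.filter fun e => f e - a * ind m z e ≠ 0).card < n := by
        rw [← hn]
        apply Finset.card_lt_card
        rw [Finset.ssubset_iff_of_subset]
        · refine ⟨z j0, by simpa using hs j0, ?_⟩
          have : ind m z (z j0) = 1 := by
            unfold ind
            rw [if_pos ⟨j0, by simpa using hj0, rfl⟩]
          simp [this, ← ha]
        · intro e he
          simp only [Finset.mem_filter, Finset.mem_univ, true_and] at he ⊢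
          intro h
          apply he
          rw [h]
          simp
      obtain ⟨k, a', m', z', h1, h2, h3, h4, h5⟩ := ih _ hlt _ rfl hcirc
      refine ⟨k + 1, Fin.cons a a', Fin.cons m m', Fin.cons z z', ?_, ?_, ?_, ?_, ?_⟩
      · intro i
        refine Fin.cases ?_ ?_ i
        · simpa using hm
        · intro i
          simpa using h1 i
      · intro i
        refine Fin.cases ?_ ?_ i
        · simpa using hz
        · intro i
          simpa using h2 i
      · intro i
        refine Fin.cases ?_ ?_ i
        · simpa using hi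
        · intro i
          simpa using h3 i
      · intro i
        refine Fin.cases ?_ ?_ i
        · simpa using ht
        · intro i
          simpa using h4 i
      · intro e
        rw [Fin.sum_univ_succ]
        simp only [Fin.cons_zero, Fin.cons_succ]
        rw [← h5 e, add_comm]
        exact hdec e

end Pool.Agent.N974.PSC.Flow0
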