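import Pool.Agent.N119.PS.Stm
import Pool.Agent.N974.PSC.Flow0

set_option autoImplicit false

/-!
# Leaf `FLOW` of project PSC
-/

namespace Pool.Agent.N974.PSC.FLOW

open scoped NNReal
open Finset

theorem t : Pool.Agent.N119.PS.S_FLOW := by
  intro V E _ _ s t f hf
  obtain ⟨k, a, m, z, h1, h2, h3, h4, h5⟩ := Flow0.main _ f rfl hf
  refine ⟨k, a, m, z, h1, h2, h3, h4, ?_⟩
  intro e inst
  rw [h5 e]
  refine Finset.sum_congr rfl fun i _ => ?_
  unfold Flow0.ind
  congr 1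
  split_ifs <;> rfl

end Pool.Agent.N974.PSC.FLOW
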